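import Mathlib

/-!
Two irreducible polynomials of degree 12 and exponent 585, each folding to a
`(5,117;3,4)`-PRAC, whose product does not fold to a `(5,117;3,8)`-PRAC.
-/

set_option maxRecDepth 100000

namespace Pool.Agent.Results.MP_2c8f22_co.Counter

open Polynomial Finset

abbrev K : Type := ZMod 2

/-- The left shift of sequences, `(T s) i = s (i + 1)`. -/
def T : Module.End K (ℕ → K) := LinearMap.funLeft K K (· + 1)

/-- `s` satisfies the linear recurrence with characteristic polynomial `f`: `f(T) s = 0`. -/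
def Gen (f : K[X]) (s : ℕ → K) : Prop := aeval T f s = 0

/-- `e` is the exponent of `f`. -/
def HasExp (f : K[X]) (e : ℕ) : Prop :=
  1 ≤ e ∧ f ∣ X ^ e - 1 ∧ ∀ e', 1 ≤ e' → e' < e → ¬ f ∣ X ^ e' - 1

/-- Doubly periodic `r1 × r2` arrays. -/
abbrev Arr (r1 r2 : ℕ) : Type := ZMod r1 → ZMod r2 → K

def shift {r1 r2 : ℕ} (A : Arr r1 r2) (i : ZMod r1) (j : ZMod r2) : Arr r1 r2 :=
  fun a b => A (i + a) (j + b)

def window {r1 r2 : ℕ} (n1 n2 : ℕ) (A : Arr r1 r2) (i : ZMod r1) (j : ZMod r2) :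
    Fin n1 → Fin n2 → K := fun a b => A (i + (a : ℕ)) (j + (b : ℕ))

def PRAC (r1 r2 n1 n2 : ℕ) (C : Set (Arr r1 r2)) : Prop :=
  r1 * r2 ∣ 2 ^ (n1 * n2) - 1 ∧
  (∀ W : Fin n1 → Fin n2 → K, W ≠ 0 → ∃! t : Arr r1 r2 × ZMod r1 × ZMod r2,
    t.1 ∈ C ∧ window n1 n2 t.1 t.2.1 t.2.2 = W) ∧
  ∀ A ∈ C, ∀ B, ((B ∈ C ∧ B ≠ A) ∨ ∃ i j, (i, j) ≠ (0, 0) ∧ B = shift A i j) →
    ∃ D ∈ C, ∃ i j, A + B = shift D i j

/-- The arrays obtained by folding the nonzero sequences generated by `f`. -/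
def Folded (r1 r2 : ℕ) (f : K[X]) : Set (Arr r1 r2) :=
  {A | ∃ s : ℕ → K, s ≠ 0 ∧ Gen f s ∧ ∀ i < r1 * r2, A i i = s i}

/-- `C` contains exactly one array of `S` from each class under cyclic shifts. -/
def Reps {r1 r2 : ℕ} (S C : Set (Arr r1 r2)) : Prop :=
  C ⊆ S ∧ ∀ A ∈ S, ∃! D, D ∈ C ∧ ∃ i j, A = shift D i j

lemma h2 : (2 : K[X]) = 0 := CharTwo.two_eq_zero

lemma shift_shift {r1 r2 : ℕ} (A : Arr r1 r2) (i j i' j') :
    shift (shift A i j) i' j' = shift A (i + i') (j + j') := by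
  funext a b; simp [shift, add_assoc]
lemma shift_zero {r1 r2 : ℕ} (A : Arr r1 r2) : shift A 0 0 = A := by
  funext a b; simp [shift]
lemma window_shift {r1 r2 : ℕ} (n1 n2) (A : Arr r1 r2) (i j) :
    window n1 n2 (shift A i j) 0 0 = window n1 n2 A i j := by
  funext a b; simp [shift, window]

lemma reps_exists {r1 r2 : ℕ} (S : Set (Arr r1 r2)) : ∃ C, Reps S C := by
  let st : Setoid S := ⟨fun A D => ∃ i j, A.1 = shift D.1 i j, ⟨fun A => ⟨0, 0, (shift_zero _).symm⟩,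
    fun ⟨i, j, h⟩ => ⟨-i, -j, by rw [h, shift_shift]; simp [shift_zero]⟩,
    fun ⟨i, j, h⟩ ⟨i', j', h'⟩ => ⟨i' + i, j' + j, by rw [h, h', shift_shift]⟩⟩⟩
  refine ⟨Set.range fun q : Quotient st => (q.out : S).1, ?_, fun A hA => ?_⟩
  · rintro _ ⟨q, rfl⟩; exact (q.out : S).2
  · refine ⟨_, ⟨⟨Quotient.mk st ⟨A, hA⟩, rfl⟩, st.symm (Quotient.mk_out (s := st) ⟨A, hA⟩)⟩, ?_⟩
    rintro _ ⟨⟨q, rfl⟩, h⟩
    have : Quotient.mk st ⟨A, hA⟩ = q := by
      rw [← Quotient.out_eq q]; exact Quotient.sound h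
    rw [this]

lemma prac_of {r1 r2 n1 n2 : ℕ} (S C : Set (Arr r1 r2)) (hC : Reps S C)
    (h0 : r1 * r2 ∣ 2 ^ (n1 * n2) - 1) (ha : ∀ A ∈ S, ∀ i j, shift A i j ∈ S)
    (hb : ∀ W, W ≠ 0 → ∃ A ∈ S, window n1 n2 A 0 0 = W)
    (hb' : ∀ A ∈ S, ∀ B ∈ S, window n1 n2 A 0 0 = window n1 n2 B 0 0 → A = B)
    (hc : ∀ A ∈ S, ∀ i j, shift A i j = A → i = 0 ∧ j = 0)
    (hd : ∀ A ∈ S, ∀ B ∈ S, B ≠ A → A + B ∈ S) : PRAC r1 r2 n1 n2 C := by
  refine ⟨h0, fun W hW => ?_, fun A hA B hB => ?_⟩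
  · obtain ⟨A, hA, hw⟩ := hb W hW
    obtain ⟨D, ⟨hD, i, j, hij⟩, hu⟩ := hC.2 A hA
    refine ⟨(D, i, j), ⟨hD, by rw [← window_shift, ← hij, hw]⟩, ?_⟩
    rintro ⟨D', i', j'⟩ ⟨hD', hw'⟩
    have e : A = shift D' i' j' :=
      hb' _ hA _ (ha _ (hC.1 hD') _ _) (by rw [window_shift, hw]; exact hw'.symm)
    obtain rfl : D' = D := hu D' ⟨hD', i', j', e⟩
    have := hc D' (hC.1 hD) (i' + -i) (j' + -j) (by
      rw [← shift_shift, ← e, hij, shift_shift]; simp [shift_zero])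
    rw [add_neg_eq_zero.1 this.1, add_neg_eq_zero.1 this.2]
  · have hB' : B ∈ S ∧ B ≠ A := by
      rcases hB with hB | ⟨i, j, hij, rfl⟩
      · exact ⟨hC.1 hB.1, hB.2⟩
      · refine ⟨ha _ (hC.1 hA) _ _, fun h => hij ?_⟩
        obtain ⟨rfl, rfl⟩ := hc _ (hC.1 hA) _ _ h
        rfl
    obtain ⟨D, ⟨hD, h⟩, -⟩ := hC.2 _ (hd A (hC.1 hA) B hB'.1 hB'.2)
    exact ⟨D, hD, h⟩

lemma T_pow (k : ℕ) (s : ℕ → K) (i : ℕ) : (T ^ k) s i = s (i + k) := by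
  induction k generalizing s with
  | zero => simp
  | succ k ih => rw [pow_succ, Module.End.mul_apply, ih]; rfl

lemma Gen.of_dvd {f g : K[X]} {s} (h : Gen f s) (hd : f ∣ g) : Gen g s := by
  obtain ⟨q, rfl⟩ := hd
  unfold Gen at *
  rw [mul_comm, map_mul, Module.End.mul_apply, h, map_zero]

lemma Gen.add {f : K[X]} {s t} (h : Gen f s) (h' : Gen f t) : Gen f (s + t) := by
  unfold Gen at *
  rw [map_add, h, h', add_zero]

lemma Gen.sh {f : K[X]} {s} (h : Gen f s) (m : ℕ) : Gen f (fun k => s (k + m)) := by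
  have : (fun k => s (k + m)) = aeval T (X ^ m : K[X]) s := by
    funext k; simp [T_pow]
  have h1 := h.of_dvd (dvd_mul_right f (X ^ m))
  unfold Gen at *
  rwa [this, ← Module.End.mul_apply, ← map_mul]

def bit (c j : ℕ) : K := if c.testBit j then 1 else 0
noncomputable def fc (c : ℕ) : K[X] := X ^ 12 + ∑ j ∈ range 12, C (bit c j) * X ^ j
def bb (B k j : ℕ) : K := bit B (12 * k + j)
def idx (a : ZMod 5) (b : ZMod 117) : ℕ := (351 * a.val + 235 * b.val) % 585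
def pos (t : ℕ) : ℕ := (351 * (t / 4) + 235 * (t % 4)) % 585

structure Data (c B I : ℕ) : Prop where
  h0 : ∀ j < 12, bb B 0 j = if j = 0 then 1 else 0
  h1 : ∀ k < 585, ∀ j < 12, bb B (k + 1) j = (if j = 0 then 0 else bb B k (j - 1)) -
    bb B k 11 * bit c j
  h2 : ∀ j < 12, bb B 585 j = if j = 0 then 1 else 0
  h3 : ∀ e < 585, 1 ≤ e → ∃ j < 12, bb B e j ≠ if j = 0 then 1 else 0
  h4 : ∀ j < 12, ∀ l < 12, ∑ t ∈ range 12, bb I j t * bb B (pos t) l = if j = l then 1 else 0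
  h5 : ∀ t < 12, ∀ u < 12, ∑ j ∈ range 12, bb B (pos t) j * bb I j u = if t = u then 1 else 0
  h6 : ∀ i < 585, ∀ j < 12, bb B ((i + 12) % 585) j +
    ∑ l ∈ range 12, bit c l * bb B ((i + l) % 585) j = 0

noncomputable def P (B k : ℕ) : K[X] := ∑ j ∈ range 12, C (bb B k j) * X ^ j

variable {c B I : ℕ}

lemma P_one {k : ℕ} (h : ∀ j < 12, bb B k j = if j = 0 then 1 else 0) : P B k = 1 := by
  simp [P, Finset.sum_range_succ, h]

lemma L1 (d : Data c B I) (k : ℕ) (hk : k ≤ 585) : fc c ∣ X ^ k - P B k := by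
  induction k with
  | zero => simp [P_one d.h0]
  | succ k ih =>
    have e : X ^ (k + 1) - P B (k + 1) = X * (X ^ k - P B k) + C (bb B k 11) * fc c := by
      have h := d.h1 k (by omega)
      simp only [P, fc, Finset.sum_range_succ, Finset.sum_range_zero, h 0 (by omega),
        h 1 (by omega), h 2 (by omega), h 3 (by omega), h 4 (by omega), h 5 (by omega),
        h 6 (by omega), h 7 (by omega), h 8 (by omega), h 9 (by omega), h 10 (by omega),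
        h 11 (by omega)]
      simp
      linear_combination (-(C (bb B k 11) * C (bit c 0))) * h2
    rw [e]
    exact dvd_add ((ih (by omega)).mul_left _) (dvd_mul_left _ _)

lemma deg_lt (g : ℕ → K) : (∑ j ∈ range 12, C (g j) * X ^ j).degree < ((12 : ℕ) : WithBot ℕ) := by
  refine (degree_sum_le _ _).trans_lt ?_
  rw [Finset.sup_lt_iff (WithBot.bot_lt_coe _)]
  intro j hj
  exact (degree_C_mul_X_pow_le _ _).trans_lt (by exact_mod_cast Finset.mem_range.1 hj)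

lemma fc_deg : (fc c).degree = ((12 : ℕ) : WithBot ℕ) := by
  rw [fc, degree_add_eq_left_of_degree_lt] <;> rw [degree_X_pow]
  exact deg_lt _

lemma hasExp (d : Data c B I) : HasExp (fc c) 585 := by
  refine ⟨by norm_num, by simpa [P_one d.h2] using L1 d 585 le_rfl, fun e h1 h2 h => ?_⟩
  obtain ⟨j, hj, hne⟩ := d.h3 e h2 h1
  have h3 : fc c ∣ P B e - 1 := by
    have := dvd_sub h (L1 d e h2.le)
    rwa [show X ^ e - 1 - (X ^ e - P B e) = P B e - 1 by ring] at this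
  have h4 := eq_zero_of_dvd_of_degree_lt h3 (by
    rw [fc_deg]
    refine (degree_sub_le _ _).trans_lt (max_lt (deg_lt _) ?_)
    rw [degree_one]; exact_mod_cast (by norm_num : 0 < 12))
  have h5 := congrArg (fun p => p.coeff j) (sub_eq_zero.1 h4)
  apply hne
  simpa [P, coeff_one, finsetSum_coeff, coeff_C_mul, coeff_X_pow, hj] using h5

lemma irr (z4 : IsCoprime (fc c) (X ^ 2 ^ 4 - X)) (z5 : IsCoprime (fc c) (X ^ 2 ^ 5 - X))
    (z6 : IsCoprime (fc c) (X ^ 2 ^ 6 - X)) : Irreducible (fc c) := by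
  have hn : (fc c).natDegree = 12 := natDegree_eq_of_degree_eq_some fc_deg
  rw [irreducible_iff_lt_natDegree_lt (by intro h; simp [h] at hn)
    (not_isUnit_of_natDegree_pos _ (by omega))]
  intro q hq hd hdvd
  rw [hn, Finset.mem_Ioc] at hd
  obtain ⟨g, hg, hgq⟩ := exists_irreducible_of_natDegree_pos hd.1
  have h1 := natDegree_le_of_dvd hgq hq.ne_zero
  have h0 := hg.natDegree_pos
  have key : ∀ n, IsCoprime (fc c) (X ^ 2 ^ n - X) → ¬ g.natDegree ∣ n := fun n hz hn' => by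
    have := (hg.natDegree_dvd_iff_dvd_X_pow_card_pow_sub_X (n := n)).1 hn'
    rw [Nat.card_zmod] at this
    exact hg.not_isUnit (hz.isUnit_of_dvd' (hgq.trans hdvd) this)
  have k4 := key 4 z4
  have k5 := key 5 z5
  have k6 := key 6 z6
  have : g.natDegree ≤ 6 := by omega
  interval_cases g.natDegree <;> omega

lemma per {f : K[X]} (hf : f ∣ X ^ 585 - 1) {s} (h : Gen f s) (i : ℕ) : s (i % 585) = s i := by
  have h1 : ∀ i, s (i + 585) = s i := fun i => by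
    have := congrFun (h.of_dvd hf) i
    simpa [T_pow, sub_eq_zero] using this
  exact Function.Periodic.map_mod_nat h1 i

lemma idx_spec : ∀ (a : ZMod 5) (b : ZMod 117), ((idx a b : ℕ) : ZMod 5) = a ∧
    ((idx a b : ℕ) : ZMod 117) = b := by decide +kernel
lemma idx_cast : ∀ i < 585, idx (i : ℕ) (i : ℕ) = i := by decide +kernel
lemma idx_lt (a b) : idx a b < 585 := Nat.mod_lt _ (by norm_num)
lemma idx_add (a b a' b') : idx (a + a') (b + b') = (idx a' b' + idx a b) % 585 := by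
  simp only [idx, ZMod.val_add]; omega

def fold (s : ℕ → K) : Arr 5 117 := fun a b => s (idx a b)

lemma mem_fold {f : K[X]} {A : Arr 5 117} :
    A ∈ Folded 5 117 f ↔ ∃ s, s ≠ 0 ∧ Gen f s ∧ A = fold s := by
  constructor
  · rintro ⟨s, h0, h1, h2⟩
    refine ⟨s, h0, h1, ?_⟩
    funext a b
    rw [fold, ← h2 _ (idx_lt a b), (idx_spec a b).1, (idx_spec a b).2]
  · rintro ⟨s, h0, h1, rfl⟩
    exact ⟨s, h0, h1, fun i hi => by rw [fold, idx_cast i hi]⟩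

lemma fold_inj {f : K[X]} (hf : f ∣ X ^ 585 - 1) {s t} (hs : Gen f s) (ht : Gen f t)
    (h : fold s = fold t) : s = t := by
  funext i
  have := congrFun (congrFun h (i % 585 : ℕ)) (i % 585 : ℕ)
  rwa [fold, fold, idx_cast _ (Nat.mod_lt _ (by norm_num)), per hf hs, per hf ht] at this

lemma shift_fold {f : K[X]} (hf : f ∣ X ^ 585 - 1) {s} (hs : Gen f s) (i j) :
    shift (fold s) i j = fold (fun k => s (k + idx i j)) := by
  funext a b
  simp only [shift, fold, idx_add, per hf hs]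

def sol (B : ℕ) (v : ℕ → K) : ℕ → K := fun k => ∑ j ∈ range 12, bb B (k % 585) j * v j

lemma sol_gen (d : Data c B I) (v) : Gen (fc c) (sol B v) := by
  funext i
  have h := d.h6 (i % 585) (Nat.mod_lt _ (by norm_num))
  simp only [Nat.mod_add_mod] at h
  have : ∑ j ∈ range 12, (bb B ((i + 12) % 585) j +
      ∑ l ∈ range 12, bit c l * bb B ((i + l) % 585) j) * v j = 0 :=
    Finset.sum_eq_zero fun j hj => by rw [h j (Finset.mem_range.1 hj), zero_mul]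
  simp only [add_mul, Finset.sum_add_distrib, Finset.sum_mul] at this
  rw [Finset.sum_comm] at this
  simpa [fc, T_pow, sol, LinearMap.sum_apply, Finset.mul_sum, mul_assoc, Algebra.algebraMap_eq_smul_one] using this

lemma L2 (d : Data c B I) {s} (h : Gen (fc c) s) (k : ℕ) (hk : k ≤ 585) :
    s k = ∑ j ∈ range 12, bb B k j * s j := by
  have := congrFun (h.of_dvd (L1 d k hk)) 0
  simpa [P, T_pow, sub_eq_zero, LinearMap.sum_apply, Algebra.algebraMap_eq_smul_one] using this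

lemma win_fold (s : ℕ → K) (a : Fin 3) (b : Fin 4) :
    window 3 4 (fold s) 0 0 a b = s (pos (4 * a + b)) := by
  have : ∀ (a : Fin 3) (b : Fin 4), idx (0 + (a : ℕ)) (0 + (b : ℕ)) = pos (4 * a + b) := by
    decide +kernel
  rw [window, fold, this]

lemma kk : ∀ x y : K, x + y = 0 ↔ x = y := by decide

lemma prac (d : Data c B I) (hi : Irreducible (fc c)) (C) (hC : Reps (Folded 5 117 (fc c)) C) :
    PRAC 5 117 3 4 C := by
  have hf := (hasExp d).2.1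
  refine prac_of _ C hC (by norm_num) ?_ ?_ ?_ ?_ ?_
  · intro A hA i j
    obtain ⟨s, h0, h1, rfl⟩ := mem_fold.1 hA
    refine mem_fold.2 ⟨_, fun h => h0 ?_, h1.sh _, shift_fold hf h1 i j⟩
    funext k
    have := congrFun h (k + (585 - idx i j))
    have hl := idx_lt i j
    rw [← per hf h1, show (k + (585 - idx i j) + idx i j) % 585 = k % 585 by omega,
      per hf h1] at this
    exact this
  · intro W hW
    let w : ℕ → K := fun t => W ⟨t / 4 % 3, Nat.mod_lt _ (by norm_num)⟩ ⟨t % 4, Nat.mod_lt _ (by norm_num)⟩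
    have hw : window 3 4 (fold (sol B fun j => ∑ u ∈ range 12, bb I j u * w u)) 0 0 = W := by
      funext a b
      have ht : 4 * (a : ℕ) + b < 12 := by omega
      rw [win_fold, sol, show pos (4 * a + b) % 585 = pos (4 * a + b) from Nat.mod_mod _ _]
      simp only [Finset.mul_sum, ← mul_assoc]
      rw [Finset.sum_comm]
      simp only [← Finset.sum_mul]
      rw [Finset.sum_congr rfl fun u hu => by rw [d.h5 _ ht u (Finset.mem_range.1 hu)]]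
      simp only [ite_mul, one_mul, zero_mul, Finset.sum_ite_eq, Finset.mem_range, ht, if_true, w]
      congr 1 <;> ext <;> simp <;> omega
    refine ⟨_, mem_fold.2 ⟨_, fun h => hW ?_, sol_gen d _, rfl⟩, hw⟩
    rw [← hw, h]; rfl
  · intro A hA A' hA' h
    obtain ⟨s, -, h1, rfl⟩ := mem_fold.1 hA
    obtain ⟨s', -, h1', rfl⟩ := mem_fold.1 hA'
    have hg := h1.add h1'
    have hz : ∀ t < 12, (s + s') (pos t) = 0 := fun t ht => by
      have := congrFun (congrFun h ⟨t / 4, by omega⟩) ⟨t % 4, by omega⟩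
      rw [win_fold, win_fold, show 4 * (t / 4) + t % 4 = t by omega] at this
      exact (kk _ _).2 this
    have hj : ∀ j < 12, (s + s') j = 0 := fun j hj => by
      have e : ∑ t ∈ range 12, bb I j t * (s + s') (pos t) = 0 :=
        Finset.sum_eq_zero fun t ht => by rw [hz t (Finset.mem_range.1 ht), mul_zero]
      rw [Finset.sum_congr rfl fun t _ => by
        rw [L2 d hg (pos t) (Nat.mod_lt _ (by norm_num)).le]] at e
      simp only [Finset.mul_sum, ← mul_assoc] at e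
      rw [Finset.sum_comm] at e
      simp only [← Finset.sum_mul] at e
      rw [Finset.sum_congr rfl fun l hl => by rw [d.h4 j hj l (Finset.mem_range.1 hl)]] at e
      simpa [hj] using e
    funext a b
    refine (kk _ _).1 ?_
    change (s + s') (idx a b) = 0
    rw [L2 d hg _ (idx_lt a b).le]
    exact Finset.sum_eq_zero fun j h => by rw [hj j (Finset.mem_range.1 h), mul_zero]
  · intro A hA i j h
    obtain ⟨s, h0, h1, rfl⟩ := mem_fold.1 hA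
    rw [shift_fold hf h1] at h
    have e := fold_inj hf (h1.sh _) h1 h
    by_cases hm : idx i j = 0
    · have := idx_spec i j
      rw [hm] at this
      exact ⟨by simpa using this.1.symm, by simpa using this.2.symm⟩
    · exfalso
      obtain ⟨p, q, hpq⟩ := hi.coprime_iff_not_dvd.2
        ((hasExp d).2.2 _ (Nat.pos_of_ne_zero hm) (idx_lt i j))
      have g2 : Gen (X ^ idx i j - 1) s := by
        funext k
        simpa [T_pow, sub_eq_zero] using congrFun e k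
      have g3 := h1.of_dvd (dvd_mul_left _ p)
      have g4 := g2.of_dvd (dvd_mul_left _ q)
      apply h0
      unfold Gen at g3 g4
      have : aeval T (p * fc c + q * (X ^ idx i j - 1)) s = 0 := by
        rw [map_add, LinearMap.add_apply, g3, g4, add_zero]
      simpa [hpq] using this
  · intro A hA A' hA' hne
    obtain ⟨s, -, h1, rfl⟩ := mem_fold.1 hA
    obtain ⟨s', -, h1', rfl⟩ := mem_fold.1 hA'
    refine mem_fold.2 ⟨s + s', fun h => hne ?_, h1.add h1', rfl⟩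
    funext a b
    exact ((kk _ _).1 (congrFun h (idx a b))).symm

def B1 : ℕ := 0x198dd4bf287943ca1e597fd32699ac1cedffbe7073839c1ce0e79fe4ffbf25f9b71c35f97e46723a1c50e2878ce467bbe5dfb625b1b55c27f9e7cfa6a535b17c06603a8c5462a38dc46e23789644bba85d42ea175937d1668bac85642b2159921d1df03e0c70638384c42621388444222189ddc3f6c7b63db86043021810c0860439ac4d626b8b845c22e117906483bcc5e62f38f447a23d893dc46e2371835d97f467a3a5c52e2978c6463bbc5de2ef8fa47dbb3c5462a315807d8e6c7aee577b3659bb405a02d01680b405a02d99bd406a03501a80d406a035997d466a3adc56e2b78d646bbb85dc2ee17793649bbc05e02f01780bc05e02f99a4cdbebc7863c31e18f94a4a5bdfc62631a95cc7fee7f7a7653bb105882c41620b19d5d67f3e79fa42521b1dc03f8c7c63e387c43e21f882441badc5bfa07d03e81f40fa07d9b3d546aa355827d9e6cfaea575b37c1660ba885442a2151925d1ff02781a4dcabfd87ec3f61fb9704b825c12e0979c64e3bfc5fe2ff8f2479bb1c55fa7e5e72fa1a50db0bc0860430218194dd2bf1878c3c61e397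c4be25f8a2451ba5c5ffa27d1a65cbffd27e9a79cb1fd5e67ebe75fa22511b05c0ff8a7c5a6fcba65daa3cdc66e33781640bb885c42e2171935d17f06783a4c5262938c4462231895dc7f6e7b7a5652bb1858c2c616393c49e24f8aa455ba7c5e62fa9a54db2bc1860c30618394c4a62538a4452229899dc1f6de3be907483a41d20e99f9d71f35e17e86743a2c51628b8c8464232119901d0df0be087043821c196dd3bf107883c41e20f19f5d77f3679ba405202901480a4052029999d41f2de1be807403a01d00e807403a01d983d4c6a6353824412209889dc9f69e39e91ec5eefefa77da33c9464a32581fd826c1aedcfbff07f83fc1fe0ff9f24f9bf1c75fb7e5672ba1850c28614392c49624b8a845422a115907d0e687ace567b3e59fb425a1b5dc23f9c7ce3e787e43fb925c9b69c39f91e45eafeda76da3bc906483241920c99e9d79f31e15e87ece767a3e51fb02581b4dc2bf987cc3e61f39744ba25d8a3ddc6ee37783641bb805c02e01700b805c02e0179864c3bec5f62fb8f047823c11e08f9ca4e5bffc72639a91cc5fefe7a73da13c8464232181dd83f4c7a63d3864432219881dcdf6be3871c38e1c796e4b7bd65ebb785bc2de16f93a49dbc3c6c63631b800400200100080040020010008004002001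
def I1 : ℕ := 16434101151443596713328922400357960386740225
lemma d1 : Data 795 B1 I1 :=
  ⟨by decide +kernel, by decide +kernel, by decide +kernel, by decide +kernel,
    by decide +kernel, by decide +kernel, by decide +kernel⟩

lemma e1 : fc 795 = (X ^ 12 + X ^ 9 + X ^ 8 + X ^ 4 + X ^ 3 + X + 1) := by
  have b0 : bit 795 0 = 1 := by decide
  have b1 : bit 795 1 = 1 := by decide
  have b2 : bit 795 2 = 0 := by decide
  have b3 : bit 795 3 = 1 := by decide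
  have b4 : bit 795 4 = 1 := by decide
  have b5 : bit 795 5 = 0 := by decide
  have b6 : bit 795 6 = 0 := by decide
  have b7 : bit 795 7 = 0 := by decide
  have b8 : bit 795 8 = 1 := by decide
  have b9 : bit 795 9 = 1 := by decide
  have b10 : bit 795 10 = 0 := by decide
  have b11 : bit 795 11 = 0 := by decide
  simp only [fc, Finset.sum_range_succ, Finset.sum_range_zero, b0, b1, b2, b3, b4, b5, b6, b7, b8, b9, b10, b11, C_0, C_1]
  ring

lemma z14 : IsCoprime (fc 795) (X ^ 2 ^ 4 - X) := by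
  refine ⟨(X ^ 15 + X ^ 13 + X ^ 12 + X ^ 11 + X ^ 9 + X ^ 7 + X ^ 6 + X ^ 3 + X ^ 2 + X + 1), (X ^ 11 + X ^ 9 + X ^ 6 + X ^ 5 + X ^ 3 + X ^ 2), ?_⟩
  rw [e1]
  linear_combination ((1) * X ^ 1 + (1) * X ^ 2 + (1) * X ^ 3 + (1) * X ^ 4 + (1) * X ^ 5 + (1) * X ^ 6 + (1) * X ^ 7 + (1) * X ^ 8 + (2) * X ^ 9 + (2) * X ^ 10 + (2) * X ^ 11 + (2) * X ^ 12 + (2) * X ^ 13 + (2) * X ^ 14 + (3) * X ^ 15 + (2) * X ^ 16 + (1) * X ^ 17 + (2) * X ^ 18 + (2) * X ^ 19 + (1) * X ^ 20 + (2) * X ^ 21 + (1) * X ^ 22 + (1) * X ^ 23 + (1) * X ^ 24 + (1) * X ^ 25 + (1) * X ^ 27) * h2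

lemma z15 : IsCoprime (fc 795) (X ^ 2 ^ 5 - X) := by
  refine ⟨(X ^ 30 + X ^ 28 + X ^ 24 + X ^ 23 + X ^ 22 + X ^ 17 + X ^ 14 + X ^ 13 + X ^ 11 + X ^ 10 + X ^ 6 + X ^ 5 + X ^ 4 + X ^ 3 + 1), (X ^ 10 + X ^ 8 + X ^ 7 + X ^ 6 + X ^ 5 + X ^ 3 + 1), ?_⟩
  rw [e1]
  linear_combination ((1) * X ^ 3 + (1) * X ^ 4 + (1) * X ^ 5 + (1) * X ^ 6 + (1) * X ^ 7 + (1) * X ^ 8 + (1) * X ^ 9 + (1) * X ^ 10 + (1) * X ^ 11 + (2) * X ^ 12 + (2) * X ^ 13 + (3) * X ^ 14 + (2) * X ^ 15 + (1) * X ^ 16 + (2) * X ^ 17 + (2) * X ^ 18 + (1) * X ^ 19 + (1) * X ^ 20 + (1) * X ^ 21 + (2) * X ^ 22 + (2) * X ^ 23 + (1) * X ^ 24 + (2) * X ^ 25 + (2) * X ^ 26 + (1) * X ^ 27 + (1) * X ^ 28 + (1) * X ^ 29 + (1) * X ^ 30 + (2) * X ^ 31 + (2) * X ^ 32 + (1) * X ^ 33 + (1) * X ^ 34 + (1) * X ^ 35 + (1) * X ^ 36 + (1) * X ^ 37 + (1) * X ^ 38 + (1) * X ^ 39 + (1) * X ^ 40 + (1) * X ^ 42) * h2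

lemma z16 : IsCoprime (fc 795) (X ^ 2 ^ 6 - X) := by
  refine ⟨(X ^ 63 + X ^ 62 + X ^ 58 + X ^ 55 + X ^ 54 + X ^ 52 + X ^ 50 + X ^ 48 + X ^ 47 + X ^ 39 + X ^ 37 + X ^ 36 + X ^ 34 + X ^ 32 + X ^ 25 + X ^ 20 + X ^ 14 + X ^ 13 + X ^ 12 + X ^ 9 + X ^ 5 + X ^ 2 + 1), (X ^ 11 + X ^ 10 + X ^ 8 + X ^ 3 + X + 1), ?_⟩
  rw [e1]
  linear_combination ((1) * X ^ 3 + (1) * X ^ 5 + (1) * X ^ 6 + (1) * X ^ 8 + (1) * X ^ 9 + (1) * X ^ 10 + (1) * X ^ 12 + (2) * X ^ 13 + (2) * X ^ 14 + (1) * X ^ 15 + (1) * X ^ 16 + (2) * X ^ 17 + (1) * X ^ 18 + (1) * X ^ 20 + (2) * X ^ 21 + (1) * X ^ 22 + (1) * X ^ 23 + (1) * X ^ 24 + (1) * X ^ 25 + (1) * X ^ 26 + (1) * X ^ 28 + (1) * X ^ 29 + (1) * X ^ 32 + (1) * X ^ 33 + (1) * X ^ 34 + (1) * X ^ 35 + (1) * X ^ 36 + (2) * X ^ 37 + (1) * X ^ 38 + (1) * X ^ 39 + (2) * X ^ 40 + (1) * X ^ 41 + (1) * X ^ 42 + (1) * X ^ 43 + (1) * X ^ 44 + (1) * X ^ 45 + (1) * X ^ 46 + (1)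 * X ^ 47 + (2) * X ^ 48 + (1) * X ^ 49 + (1) * X ^ 50 + (2) * X ^ 51 + (1) * X ^ 52 + (1) * X ^ 53 + (1) * X ^ 54 + (2) * X ^ 55 + (2) * X ^ 56 + (1) * X ^ 57 + (2) * X ^ 58 + (2) * X ^ 59 + (1) * X ^ 60 + (1) * X ^ 61 + (2) * X ^ 62 + (2) * X ^ 63 + (2) * X ^ 64 + (1) * X ^ 65 + (2) * X ^ 66 + (2) * X ^ 67 + (1) * X ^ 70 + (1) * X ^ 71 + (1) * X ^ 72 + (1) * X ^ 74 + (1) * X ^ 75) * h2

def B2 : ℕ := 0x1a35f2fda26d195de9bd786bc35e1afae257188de73d0c686343b945ca2e5b47f967cb9d04e827413a09da7bf087843c21e1ac5f57d9e6cf9524a9861e05d37cae65791e48f872439829e21d25ca7c6663392c49624bb105882c41620b1a6df03db46da36db83ff47fa3fdbcbfd07e83f41fa0fda4bf107883c41e20f1a4df13dbc6de36fb825c18d5e5fd1a68d973e8c7463a3be45f22f9b49f91dfdccbc5062831418a0c5a57f1e78f9f24f9849e11d3dcabc6063031818c0c6063a04502281b75f8fdf26f9949e91d7dc8bc7063831c18e0c7a5652b8a045022811408a045a17f3e79f9fa4fd84be107083841c20e1a45f1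7dbe6df95a4ad863e04702381bf5fcfdd26e9941e95d7fc8a645917ebe75f99a4cd853e1c70e387bf65fb8c8464232119ab9f69d81cf5c4fc12609931eadd63c84642321ba5fe7dc66e39444a2251b1dfbbde86f437a1bdaebf407a03d01e80f407a03da2bf207903c81e40f2079a09f31dadce3c44622311bbdfebdc06e03701b80dc06e037a2e5178be45f81a40d833e2c71638bbf05f82fc17e0bfa6a5358afe627319adee3d446a2351b9dffbdc86e43721b9ae9f41d95cffc4a625927ea675399c4ce267b065838f447a23db2bfa07d03e81f40fa07da0bf307983cc1e60f3a4c526293b7c5be2dfb5a5ad8e3e44722391bfdfcbdd06e83741ba0dda5bf1878c3c61e3ac45622b1b6df83df46fa37db8bff07f83fc1fe0ffa4a5258a7e667339ac4d626bb005802c01600b005802c01600ba3051828c1460a3a64532299b79f89df1ccdc53c1c60e307bb65db8d846c23611bab855c2ae157a9e54f892449811e3dd2bca06503281940ca065a07f3679b9f84fc27e13faaa55589fe7a73d9abee07703b81dc0ee077a0e5078b645b81840c206103ab455a2adb63f847c23e1bc5fd7dde6ef9424a1865e07d3669b9784bc25e12faa255189de7bd086843421a1ae5f47d966cb9504a825412a095a7ff0a7859f7ece7679864c385442a215b3ffaa7d59dfeda76d983ef477a3bdbebfc07e03f01f80fc07e03fa2a5158bfe6a7359afee277198def3d4c6a6353b9c5ce2e7b465a38e4472239b29fa1de5cc7c5662b920490248124092049a11f3ddabce067033819c0ce067a065038b445a22db23fa47d23e9bc1fd5ddfcda66d903eb475a3adbe3fc47e23f1bcdfd3ddc6ee377b8e5c78d646b800400200100080040020010008004002001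
def I2 : ℕ := 1150205606629733467694420792742521883197441
lemma d2 : Data 1131 B2 I2 :=
  ⟨by decide +kernel, by decide +kernel, by decide +kernel, by decide +kernel,
    by decide +kernel, by decide +kernel, by decide +kernel⟩

lemma e2 : fc 1131 = (X ^ 12 + X ^ 10 + X ^ 6 + X ^ 5 + X ^ 3 + X + 1) := by
  have b0 : bit 1131 0 = 1 := by decide
  have b1 : bit 1131 1 = 1 := by decide
  have b2 : bit 1131 2 = 0 := by decide
  have b3 : bit 1131 3 = 1 := by decide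
  have b4 : bit 1131 4 = 0 := by decide
  have b5 : bit 1131 5 = 1 := by decide
  have b6 : bit 1131 6 = 1 := by decide
  have b7 : bit 1131 7 = 0 := by decide
  have b8 : bit 1131 8 = 0 := by decide
  have b9 : bit 1131 9 = 0 := by decide
  have b10 : bit 1131 10 = 1 := by decide
  have b11 : bit 1131 11 = 0 := by decide
  simp only [fc, Finset.sum_range_succ, Finset.sum_range_zero, b0, b1, b2, b3, b4, b5, b6, b7, b8, b9, b10, b11, C_0, C_1]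
  ring

lemma z24 : IsCoprime (fc 1131) (X ^ 2 ^ 4 - X) := by
  refine ⟨(X ^ 14 + X ^ 12 + X ^ 11 + X ^ 7 + 1), (X ^ 10 + X ^ 7 + X ^ 6 + X ^ 5 + X ^ 4 + X ^ 2 + 1), ?_⟩
  rw [e2]
  linear_combination ((1) * X ^ 10 + (2) * X ^ 12 + (1) * X ^ 13 + (1) * X ^ 14 + (1) * X ^ 15 + (1) * X ^ 16 + (2) * X ^ 17 + (1) * X ^ 18 + (1) * X ^ 19 + (1) * X ^ 20 + (1) * X ^ 21 + (1) * X ^ 22 + (1) * X ^ 23 + (1) * X ^ 24 + (1) * X ^ 26) * h2

lemma z25 : IsCoprime (fc 1131) (X ^ 2 ^ 5 - X) := by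
  refine ⟨(X ^ 30 + X ^ 25 + X ^ 24 + X ^ 23 + X ^ 22 + X ^ 21 + X ^ 19 + X ^ 18 + X ^ 17 + X ^ 14 + X ^ 8 + X ^ 7 + X ^ 6 + X ^ 5 + X ^ 4 + X ^ 2 + 1), (X ^ 10 + X ^ 8 + X ^ 5 + X ^ 3 + X + 1), ?_⟩
  rw [e2]
  linear_combination ((1) * X ^ 3 + (2) * X ^ 5 + (1) * X ^ 6 + (2) * X ^ 7 + (2) * X ^ 8 + (1) * X ^ 9 + (2) * X ^ 10 + (1) * X ^ 11 + (2) * X ^ 12 + (1) * X ^ 13 + (2) * X ^ 14 + (1) * X ^ 15 + (1) * X ^ 16 + (2) * X ^ 17 + (2) * X ^ 18 + (2) * X ^ 19 + (2) * X ^ 20 + (1) * X ^ 21 + (2) * X ^ 22 + (2) * X ^ 23 + (3) * X ^ 24 + (2) * X ^ 25 + (2) * X ^ 26 + (2) * X ^ 27 + (2) * X ^ 28 + (2) * X ^ 29 + (2) * X ^ 30 + (2) * X ^ 31 + (1) * X ^ 32 + (2) * X ^ 33 + (1) * X ^ 34 + (2) * X ^ 35 + (1) * X ^ 36 + (1) * X ^ 37 + (1) * X ^ 40 + (1) * X ^ 42) * h2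

lemma z26 : IsCoprime (fc 1131) (X ^ 2 ^ 6 - X) := by
  refine ⟨(X ^ 61 + X ^ 59 + X ^ 55 + X ^ 54 + X ^ 52 + X ^ 50 + X ^ 42 + X ^ 39 + X ^ 38 + X ^ 37 + X ^ 31 + X ^ 30 + X ^ 28 + X ^ 26 + X ^ 24 + X ^ 23 + X ^ 22 + X ^ 21 + X ^ 20 + X ^ 19 + X ^ 18 + X ^ 17 + X ^ 15 + X ^ 13 + X ^ 12 + X ^ 10 + X ^ 8 + X ^ 7 + X ^ 5 + X ^ 4 + X ^ 2 + X + 1), (X ^ 9 + X ^ 5), ?_⟩
  rw [e2]
  linear_combination ((1) * X ^ 1 + (1) * X ^ 2 + (1) * X ^ 3 + (1) * X ^ 4 + (2) * X ^ 5 + (1) * X ^ 6 + (2) * X ^ 7 + (2) * X ^ 8 + (1) * X ^ 9 + (2) * X ^ 10 + (2) * X ^ 11 + (2) * X ^ 12 + (3) * X ^ 13 + (2) * X ^ 14 + (2) * X ^ 15 + (2) * X ^ 16 + (2) * X ^ 17 + (3) * X ^ 18 + (2) * X ^ 19 + (3) * X ^ 20 + (2) * X ^ 21 + (3) * X ^ 22 + (3) * X ^ 23 + (3) * X ^ 24 + (3) * X ^ 25 + (2) * X ^ 26 + (3) * X ^ 27 + (2) * X ^ 28 + (3) * X ^ 29 + (2) * X ^ 30 + (3) * X ^ 31 + (2) * X ^ 32 + (2) * X ^ 33 + (2) * X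 ^ 34 + (1) * X ^ 35 + (2) * X ^ 36 + (1) * X ^ 37 + (2) * X ^ 38 + (1) * X ^ 39 + (2) * X ^ 40 + (1) * X ^ 41 + (2) * X ^ 42 + (2) * X ^ 43 + (1) * X ^ 44 + (1) * X ^ 45 + (1) * X ^ 47 + (1) * X ^ 48 + (1) * X ^ 49 + (1) * X ^ 50 + (1) * X ^ 51 + (1) * X ^ 52 + (1) * X ^ 53 + (1) * X ^ 54 + (2) * X ^ 55 + (1) * X ^ 56 + (1) * X ^ 57 + (1) * X ^ 58 + (1) * X ^ 59 + (2) * X ^ 60 + (1) * X ^ 61 + (2) * X ^ 62 + (2) * X ^ 64 + (1) * X ^ 65 + (1) * X ^ 66 + (1) * X ^ 67 + (1) * X ^ 69 + (1) * X ^ 71 + (1) * X ^ 73) * h2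

def v1 : ℕ := 3642
def v2 : ℕ := 2874

theorem result : ∃ f1 f2 : K[X], f1 ≠ f2 ∧ Irreducible f1 ∧ Irreducible f2 ∧
    f1.natDegree = 3 * 4 ∧ f2.natDegree = 3 * 4 ∧ HasExp f1 (5 * 117) ∧ HasExp f2 (5 * 117) ∧
    ((∃ C, Reps (Folded 5 117 f1) C) ∧ ∀ C, Reps (Folded 5 117 f1) C → PRAC 5 117 3 4 C) ∧
    ((∃ C, Reps (Folded 5 117 f2) C) ∧ ∀ C, Reps (Folded 5 117 f2) C → PRAC 5 117 3 4 C) ∧
    ((∃ C, Reps (Folded 5 117 (f1 * f2)) C) ∧
      ∀ C, Reps (Folded 5 117 (f1 * f2)) C → ¬ PRAC 5 117 3 (2 * 4) C) := by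
  have i1 := irr z14 z15 z16
  have i2 := irr z24 z25 z26
  refine ⟨fc 795, fc 1131, fun h => ?_, i1, i2, natDegree_eq_of_degree_eq_some fc_deg,
    natDegree_eq_of_degree_eq_some fc_deg, hasExp d1, hasExp d2,
    ⟨reps_exists _, prac d1 i1⟩, ⟨reps_exists _, prac d2 i2⟩, reps_exists _, fun C hC hP => ?_⟩
  · have := congrArg (fun p => p.coeff 9) h
    simp [e1, e2, coeff_X, coeff_one, coeff_X_pow] at this
  have g1 : Gen (fc 795 * fc 1131) (sol B1 (bit v1)) := (sol_gen d1 _).of_dvd (dvd_mul_right _ _)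
  have g2 : Gen (fc 795 * fc 1131) (sol B2 (bit v2)) := (sol_gen d2 _).of_dvd (dvd_mul_left _ _)
  have m1 : fold (sol B1 (bit v1)) ∈ Folded 5 117 (fc 795 * fc 1131) :=
    mem_fold.2 ⟨_, fun h => absurd (congrFun h 1) (by decide +kernel), g1, rfl⟩
  have m2 : fold (sol B2 (bit v2)) ∈ Folded 5 117 (fc 795 * fc 1131) :=
    mem_fold.2 ⟨_, fun h => absurd (congrFun h 1) (by decide +kernel), g2, rfl⟩
  have hw : window 3 (2 * 4) (fold (sol B1 (bit v1))) 0 0 =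
      window 3 (2 * 4) (fold (sol B2 (bit v2))) 0 0 := by decide +kernel
  obtain ⟨D, ⟨hD, i, j, e⟩, -⟩ := hC.2 _ m1
  obtain ⟨D', ⟨hD', i', j', e'⟩, -⟩ := hC.2 _ m2
  have hu := (hP.2.1 (window 3 (2 * 4) (fold (sol B1 (bit v1))) 0 0) (by decide +kernel)).unique
    (y₁ := (D, i, j)) (y₂ := (D', i', j')) ⟨hD, by rw [← window_shift, ← e]⟩
    ⟨hD', by rw [← window_shift, ← e', hw]⟩
  simp only [Prod.mk.injEq] at hu
  obtain ⟨rfl, rfl, rfl⟩ := hu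
  have : ∃ k : Fin 20, fold (sol B1 (bit v1)) (k : ℕ) (k : ℕ) ≠
      fold (sol B2 (bit v2)) (k : ℕ) (k : ℕ) := by decide +kernel
  obtain ⟨k, hk⟩ := this
  exact hk (by rw [e, e'])

end Pool.Agent.Results.MP_2c8f22_co.Counter
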